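import Pool.Agent.Q260.LF.PF
import Pool.Agent.Q204.NA.Spec

/-! # The sum of the inverse products of the zeros -/

set_option autoImplicit false
set_option maxHeartbeats 1000000

open Complex Filter Topology Set MeasureTheory
open scoped ComplexConjugate
open Pool.Agent.H24R2.JP (XX)
open Pool.Agent.Y23
open Pool.Agent.Q260.LF

namespace Pool.Agent.Q210.NA

/-- the zeros keep away from the real axis, in the form used here -/
lemma gap : ∃ m : ℝ, 0 < m ∧ m ≤ 1 ∧ ∀ ρ : Zt,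
    m * (1 + (ρ : ℂ).im ^ 2) ≤ (ρ : ℂ).re * (1 - (ρ : ℂ).re) + (ρ : ℂ).im ^ 2 := by
  have hfin := isZ_finite 1
  have key : ∀ s : ℂ, IsZ s → 0 < s.re * (1 - s.re) + s.im ^ 2 := fun s hs => by
    have := mul_pos hs.2.1 (sub_pos.2 hs.2.2)
    positivity
  obtain ⟨m, hm, hmin⟩ : ∃ m : ℝ, 0 < m ∧ ∀ s : ℂ, IsZ s → |s.im| ≤ 1 →
      m ≤ s.re * (1 - s.re) + s.im ^ 2 := by
    by_cases hne : {s : ℂ | IsZ s ∧ |s.im| ≤ 1}.Nonempty
    · obtain ⟨s0, hs0, hmin⟩ := Set.exists_min_image _ (fun s : ℂ => s.re * (1 - s.re) + s.im ^ 2)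
        hfin hne
      exact ⟨_, key s0 hs0.1, fun s hs hs1 => hmin s ⟨hs, hs1⟩⟩
    · refine ⟨1, one_pos, fun s hs hs1 => ?_⟩
      exact absurd ⟨s, hs, hs1⟩ hne
  refine ⟨min (m / 2) (1 / 2), by positivity, (min_le_right _ _).trans (by norm_num), fun ρ => ?_⟩
  have hρ : IsZ (ρ : ℂ) := ρ.2
  have hp := mul_pos hρ.2.1 (sub_pos.2 hρ.2.2)
  by_cases h1 : |(ρ : ℂ).im| ≤ 1
  · have h2 := hmin _ hρ h1
    have h3 : (ρ : ℂ).im ^ 2 ≤ 1 := by
      rw [← sq_abs]; nlinarith [abs_nonneg (ρ : ℂ).im]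
    have h4 : min (m / 2) (1 / 2) ≤ m / 2 := min_le_left _ _
    have h5 : min (m / 2) (1 / 2) * (1 + (ρ : ℂ).im ^ 2) ≤ m / 2 * (1 + 1) :=
      mul_le_mul h4 (by linarith) (by positivity) (by positivity)
    linarith
  · rw [not_le] at h1
    have h3 : 1 ≤ (ρ : ℂ).im ^ 2 := by
      rw [← sq_abs]; nlinarith [abs_nonneg (ρ : ℂ).im]
    have h4 : min (m / 2) (1 / 2) ≤ 1 / 2 := min_le_right _ _
    have h5 : min (m / 2) (1 / 2) * (1 + (ρ : ℂ).im ^ 2) ≤ 1 / 2 * (1 + (ρ : ℂ).im ^ 2) :=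
      mul_le_mul_of_nonneg_right h4 (by positivity)
    linarith

/-- the region -/
def Reg (η : ℝ) : Set ℂ := {z : ℂ | 1 / 2 - η < z.re ∧ z.re < 3 ∧ -η < z.im ∧ z.im < η}

lemma Reg_eq (η : ℝ) : Reg η = Ioo (1 / 2 - η) 3 ×ℂ Ioo (-η) η := by
  ext z
  simp only [Complex.mem_reProdIm, mem_Ioo]
  constructor
  · rintro ⟨a, b, c, d⟩
    exact ⟨⟨a, b⟩, c, d⟩
  · rintro ⟨⟨a, b⟩, c, d⟩
    exact ⟨a, b, c, d⟩

lemma Reg_open (η : ℝ) : IsOpen (Reg η) := by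
  rw [Reg_eq]; exact isOpen_Ioo.reProdIm isOpen_Ioo

lemma Reg_conn (η : ℝ) : IsPreconnected (Reg η) := by
  have h := (((convex_halfSpace_re_gt (1 / 2 - η)).inter (convex_halfSpace_re_lt 3)).inter
    (convex_halfSpace_im_gt (-η))).inter (convex_halfSpace_im_lt η)
  have e : Reg η = (({z : ℂ | 1 / 2 - η < z.re} ∩ {z : ℂ | z.re < 3}) ∩ {z : ℂ | -η < z.im}) ∩ {z : ℂ | z.im < η} := by
    ext z
    simp only [Reg, Set.mem_inter_iff]
    constructor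
    · rintro ⟨a, b, c, d⟩
      exact ⟨⟨⟨a, b⟩, c⟩, d⟩
    · rintro ⟨⟨⟨a, b⟩, c⟩, d⟩
      exact ⟨a, b, c, d⟩
  rw [e]
  exact h.isPreconnected

/-- the lower bound for the denominators -/
lemma low {m η : ℝ} (hm : 0 < m) (hm1 : m ≤ 1) (hη : 0 < η) (hη1 : η ≤ m / 4) {ρ : Zt}
    (h : m * (1 + (ρ : ℂ).im ^ 2) ≤ (ρ : ℂ).re * (1 - (ρ : ℂ).re) + (ρ : ℂ).im ^ 2)
    {z : ℂ} (hz : z ∈ Reg η) : m / 2 * (1 + (ρ : ℂ).im ^ 2) ≤ ‖z ^ 2 - ((ρ : ℂ) - 1 / 2) ^ 2‖ := by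
  obtain ⟨z1, z2, z3, z4⟩ := hz
  refine le_trans ?_ (Complex.re_le_norm _)
  have e : (z ^ 2 - ((ρ : ℂ) - 1 / 2) ^ 2).re =
      z.re ^ 2 - z.im ^ 2 - 1 / 4 + ((ρ : ℂ).re * (1 - (ρ : ℂ).re) + (ρ : ℂ).im ^ 2) := by
    simp [pow_two]
    ring
  rw [e]
  have h1 : (1 / 2 - η) ^ 2 ≤ z.re ^ 2 := pow_le_pow_left₀ (by linarith) z1.le 2
  have h2 : z.im ^ 2 ≤ η ^ 2 := by nlinarith
  have h3 : η ^ 2 ≤ η := by nlinarith
  have h4 : 0 ≤ m * (ρ : ℂ).im ^ 2 := by positivity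
  nlinarith

theorem const0 : ∑' ρ : Zt, (mu ρ : ℂ) / ((ρ : ℂ) * (1 - (ρ : ℂ))) =
    2 + (Real.eulerMascheroniConstant : ℂ) - Complex.log (4 * Real.pi) := by
  obtain ⟨m, hm, hm1, hgap⟩ := gap
  set η : ℝ := m / 4 with hη
  have hη0 : 0 < η := by positivity
  have hopen := Reg_open η
  -- analyticity of the two sides
  have hXne : ∀ z ∈ Reg η, XX z ≠ 0 := by
    intro z hz h0
    have h1 : IsZ (z + 1 / 2) := by
      rw [isZ_iff]
      rw [add_sub_cancel_right]; exact h0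
    have h2 := low hm hm1 hη0 le_rfl (hgap ⟨z + 1 / 2, h1⟩) hz
    have e : z ^ 2 - (((⟨z + 1 / 2, h1⟩ : Zt) : ℂ) - 1 / 2) ^ 2 = 0 := by
      show z ^ 2 - (z + 1 / 2 - 1 / 2) ^ 2 = 0
      ring
    rw [e, norm_zero] at h2
    have : 0 < m / 2 * (1 + ((⟨z + 1 / 2, h1⟩ : Zt) : ℂ).im ^ 2) := by positivity
    linarith
  have hL : DifferentiableOn ℂ ZZ (Reg η) := by
    intro z hz
    have h1 : DifferentiableAt ℂ (deriv XX) z := (XX_an z).deriv.differentiableAt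
    exact (h1.div (XX_diff z) (hXne z hz)).differentiableWithinAt
  have hR : DifferentiableOn ℂ (fun z => ∑' ρ : Zt, (mu ρ : ℂ) * hk z ((ρ : ℂ) - 1 / 2)) (Reg η) := by
    refine differentiableOn_tsum_of_summable_norm
      (u := fun ρ : Zt => 8 / m * ((mu ρ : ℝ) * (1 / (1 + ((ρ : ℂ).im - 0) ^ 2))))
      ((zsummable 0).mul_left _) ?_ hopen ?_
    · intro ρ z hz
      have h2 := low hm hm1 hη0 le_rfl (hgap ρ) hz
      have h3 : z ^ 2 - ((ρ : ℂ) - 1 / 2) ^ 2 ≠ 0 := by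
        intro h0
        rw [h0, norm_zero] at h2
        have : 0 < m / 2 * (1 + (ρ : ℂ).im ^ 2) := by positivity
        linarith
      have hd : DifferentiableAt ℂ (fun w : ℂ => w ^ 2 - ((ρ : ℂ) - 1 / 2) ^ 2) z :=
        ((differentiableAt_id (x := z)).pow 2).sub_const _
      exact ((differentiableAt_id.div hd h3).const_mul _).differentiableWithinAt
    · intro ρ z hz
      have h2 := low hm hm1 hη0 le_rfl (hgap ρ) hz
      have h4 : ‖z‖ ≤ 4 := by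
        refine (Complex.norm_le_abs_re_add_abs_im z).trans ?_
        obtain ⟨z1, z2, z3, z4⟩ := hz
        have h5 : |z.re| ≤ 3 := by rw [abs_le]; constructor <;> linarith
        have h6 : |z.im| ≤ 1 := by rw [abs_le]; constructor <;> linarith
        linarith
      have h5 : 0 < m / 2 * (1 + (ρ : ℂ).im ^ 2) := by positivity
      rw [norm_mul, Complex.norm_natCast, sub_zero]
      have h6 : ‖hk z ((ρ : ℂ) - 1 / 2)‖ ≤ 4 / (m / 2 * (1 + (ρ : ℂ).im ^ 2)) := by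
        unfold hk
        rw [norm_div]
        exact div_le_div₀ (by norm_num) h4 h5 h2
      have h7 := mul_le_mul_of_nonneg_left h6 (Nat.cast_nonneg (α := ℝ) (mu ρ))
      refine h7.trans (le_of_eq ?_)
      field_simp
      ring
  have hhalf : (1 / 2 : ℂ) ∈ Reg η := by
    refine ⟨?_, ?_, ?_, ?_⟩ <;> simp <;> linarith
  have htwo : (2 : ℂ) ∈ Reg η := by
    refine ⟨?_, ?_, ?_, ?_⟩ <;> simp <;> linarith
  have hid := (hL.analyticOnNhd hopen).eqOn_of_preconnected_of_eventuallyEq (hR.analyticOnNhd hopen)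
    (Reg_conn η) htwo (by
      have : {z : ℂ | 1 < z.re} ∈ 𝓝 (2 : ℂ) :=
        (isOpen_lt continuous_const Complex.continuous_re).mem_nhds (by simp)
      filter_upwards [this] with z hz
      exact pf hz)
  have h0 := hid hhalf
  have hz : ZZ (1 / 2) = completedRiemannZeta₀ 1 := by
    unfold ZZ
    have h1 : HasDerivAt XX (4 * completedRiemannZeta₀ 1) (1 / 2) := by
      have h2 : HasDerivAt (fun z : ℂ => 4 * z ^ 2 - 1) 4 (1 / 2) := by
        have := ((hasDerivAt_pow 2 (1 / 2 : ℂ)).const_mul 4).sub_const 1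
        refine this.congr_deriv ?_
        norm_num
      have h3 : HasDerivAt (fun z : ℂ => completedRiemannZeta₀ (1 / 2 + z))
          (deriv (fun z : ℂ => completedRiemannZeta₀ (1 / 2 + z)) (1 / 2)) (1 / 2) := by
        apply DifferentiableAt.hasDerivAt
        have := differentiable_completedZeta₀
        exact (this _).comp _ (by fun_prop)
      have h4 := (h2.mul h3).add_const 4
      refine (h4.congr_deriv ?_)
      norm_num
    rw [h1.deriv]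
    have h5 : XX (1 / 2) = 4 := by unfold XX; norm_num
    rw [h5]
    field_simp
  rw [hz, completedRiemannZeta₀_one] at h0
  have h1 : ∑' ρ : Zt, (mu ρ : ℂ) / ((ρ : ℂ) * (1 - (ρ : ℂ))) =
      2 * ∑' ρ : Zt, (mu ρ : ℂ) * hk (1 / 2) ((ρ : ℂ) - 1 / 2) := by
    rw [← tsum_mul_left]
    refine tsum_congr fun ρ => ?_
    unfold hk
    have e : ((1 / 2 : ℂ) ^ 2 - ((ρ : ℂ) - 1 / 2) ^ 2) = (ρ : ℂ) * (1 - (ρ : ℂ)) := by ring
    rw [e]
    ring
  have h2 : (∑' ρ : Zt, (mu ρ : ℂ) * hk (1 / 2) ((ρ : ℂ) - 1 / 2)) =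
      ((Real.eulerMascheroniConstant : ℂ) - Complex.log (4 * Real.pi)) / 2 + 1 := h0.symm
  rw [h1, h2]
  ring

theorem const : Q204.NA.SConst := by
  have h := const0
  unfold Q204.NA.SConst
  rw [h]
  have e : Complex.log (4 * Real.pi) = ((Real.log (4 * Real.pi) : ℝ) : ℂ) := by
    rw [Complex.ofReal_log (by positivity)]
    push_cast
    rfl
  rw [e]
  push_cast
  rfl

end Pool.Agent.Q210.NA
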