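import Pool.Agent.Q204.NA.Spec
import Pool.Agent.Q260.LF.Fin

/-! # The Nicolas function under the Riemann hypothesis -/

set_option autoImplicit false
set_option maxHeartbeats 1000000

open Filter Topology MeasureTheory Set
open Pool.Agent.Y23 (Zt mu)
open Q239.RN

namespace Pool.Agent.Q210.NA

/-- the averaging lemma -/
theorem avg {g : ℝ → ℝ} (hg : Measurable g) {B L : ℝ} (hB : ∀ v : ℝ, 1 ≤ v → |g v| ≤ B)
    (hL : Tendsto g atTop (𝓝 L)) :
    Tendsto (fun u : ℝ => u * Real.exp (u / 2) * ∫ v in Ioi u, Real.exp (-(v / 2)) * g v * om v)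
      atTop (𝓝 (2 * L)) := by
  have hexp : IntegrableOn (fun s : ℝ => Real.exp (-(s / 2))) (Ioi 0) := by
    have := integrableOn_exp_mul_Ioi (a := -(1 / 2 : ℝ)) (by norm_num) 0
    refine this.congr_fun (fun s _ => ?_) measurableSet_Ioi
    show Real.exp (-(1 / 2) * s) = _
    congr 1; ring
  have hval : ∫ s in Ioi (0 : ℝ), Real.exp (-(s / 2)) = 2 := by
    have := integral_exp_mul_Ioi (a := -(1 / 2 : ℝ)) (by norm_num) 0
    have e : (fun s : ℝ => Real.exp (-(s / 2))) = fun s => Real.exp (-(1 / 2 : ℝ) * s) := by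
      funext s; congr 1; ring
    rw [e, this]
    norm_num
  have hB0 : 0 ≤ B := (abs_nonneg _).trans (hB 1 le_rfl)
  have key : Tendsto (fun u : ℝ => ∫ s in Ioi (0 : ℝ),
      Real.exp (-(s / 2)) * g (s + u) * (u * om (s + u))) atTop
      (𝓝 (∫ s in Ioi (0 : ℝ), Real.exp (-(s / 2)) * L)) := by
    refine tendsto_integral_filter_of_dominated_convergence
      (bound := fun s => Real.exp (-(s / 2)) * (B * 2)) ?_ ?_ (hexp.mul_const _) ?_
    · refine Eventually.of_forall fun u => ?_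
      have h1 : Measurable fun s : ℝ => g (s + u) := hg.comp (by fun_prop)
      have h2 : Measurable fun s : ℝ => om (s + u) := om_meas.comp (by fun_prop)
      exact (((by fun_prop : Measurable fun s : ℝ => Real.exp (-(s / 2))).mul h1).mul
        (h2.const_mul u)).aestronglyMeasurable
    · filter_upwards [eventually_ge_atTop 1] with u hu
      refine (ae_restrict_iff' measurableSet_Ioi).2 (Eventually.of_forall fun s hs => ?_)
      have hs0 : (0 : ℝ) < s := hs
      have h1 : 1 ≤ s + u := by linarith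
      have h2 : u * om (s + u) ≤ 2 := by
        have h3 := om_le h1
        calc u * om (s + u) ≤ u * (2 / (s + u)) := by gcongr
          _ ≤ 2 := by
            rw [mul_div_assoc', div_le_iff₀ (by linarith)]
            nlinarith
      have h4 : 0 ≤ om (s + u) := (om_pos (by linarith)).le
      rw [Real.norm_eq_abs, abs_mul, abs_mul, abs_of_pos (Real.exp_pos _), abs_of_nonneg (by positivity : 0 ≤ u * om (s + u)),
        mul_assoc]
      have h5 := hB _ h1
      gcongr
    · refine (ae_restrict_iff' measurableSet_Ioi).2 (Eventually.of_forall fun s hs => ?_)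
      have hs0 : (0 : ℝ) < s := hs
      have h1 : Tendsto (fun u : ℝ => s + u) atTop atTop := tendsto_atTop_add_const_left _ _ tendsto_id
      have h2 : Tendsto (fun u : ℝ => g (s + u)) atTop (𝓝 L) := hL.comp h1
      have h3 : Tendsto (fun u : ℝ => u * om (s + u)) atTop (𝓝 1) := by
        have i1 : Tendsto (fun u : ℝ => (s + u)⁻¹) atTop (𝓝 0) := tendsto_inv_atTop_zero.comp h1
        have i2 : Tendsto (fun u : ℝ => (1 - s * (s + u)⁻¹) * (1 + (s + u)⁻¹)) atTop
            (𝓝 ((1 - s * 0) * (1 + 0))) :=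
          (tendsto_const_nhds.sub (i1.const_mul s)).mul (tendsto_const_nhds.add i1)
        have e : (1 - s * 0) * (1 + 0) = (1 : ℝ) := by ring
        rw [e] at i2
        refine i2.congr' ?_
        filter_upwards [eventually_gt_atTop 0] with u hu
        have : s + u ≠ 0 := by positivity
        unfold om
        field_simp
        ring
      have h4 := (tendsto_const_nhds (x := Real.exp (-(s / 2)))).mul h2
      have h5 := h4.mul h3
      rw [mul_one] at h5
      exact h5
  rw [integral_mul_const, hval] at key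
  refine key.congr' ?_
  refine Eventually.of_forall fun u => ?_
  have h1 : ∫ v in Ioi u, Real.exp (-(v / 2)) * g v * om v =
      ∫ s in Ioi (0 : ℝ), Real.exp (-((s + u) / 2)) * g (s + u) * om (s + u) := by
    have h2 := integral_add_right_eq_self (μ := volume)
      ((Ioi u).indicator fun v : ℝ => Real.exp (-(v / 2)) * g v * om v) u
    rw [integral_indicator measurableSet_Ioi] at h2
    rw [← h2, ← integral_indicator measurableSet_Ioi]
    congr 1
    funext s
    by_cases hs : 0 < s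
    · rw [indicator_of_mem (show s ∈ Ioi (0 : ℝ) from hs), indicator_of_mem (show s + u ∈ Ioi u from by
        show u < s + u; linarith)]
    · rw [indicator_of_notMem (show s ∉ Ioi (0 : ℝ) from hs), indicator_of_notMem (show s + u ∉ Ioi u from by
        intro h; have h' : u < s + u := h; exact hs (by linarith))]
  show _ = u * Real.exp (u / 2) * ∫ v in Ioi u, Real.exp (-(v / 2)) * g v * om v
  rw [h1, ← integral_const_mul]
  refine setIntegral_congr_fun measurableSet_Ioi fun s _ => ?_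
  have h2 : Real.exp (-((s + u) / 2)) = Real.exp (-(s / 2)) * Real.exp (-(u / 2)) := by
    rw [← Real.exp_add]; congr 1; ring
  have h3 : Real.exp (u / 2) * Real.exp (-(u / 2)) = 1 := by rw [← Real.exp_add]; simp
  show Real.exp (-(s / 2)) * g (s + u) * (u * om (s + u)) =
    u * Real.exp (u / 2) * (Real.exp (-((s + u) / 2)) * g (s + u) * om (s + u))
  rw [h2]
  linear_combination (-(Real.exp (-(s / 2)) * g (s + u) * (u * om (s + u)))) * h3

theorem eP_zero : Tendsto eP atTop (𝓝 0) := by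
  obtain ⟨C, hC, h⟩ := eP_pnt 1
  exact tendsto_zero_of_inv h

/-- `ψ - θ` is asymptotic to the square root -/
theorem diff_lim : Tendsto (fun v : ℝ => Real.exp (v / 2) * (eP v - eT v)) atTop (𝓝 1) := by
  have hpsi : ∀ t : ℝ, Chebyshev.psi (Real.exp t) = Real.exp t * (1 + eP t) := by
    intro t
    unfold eP
    have : Real.exp t * Real.exp (-t) = 1 := by rw [← Real.exp_add]; simp
    linear_combination (-Chebyshev.psi (Real.exp t)) * this
  have hpow : ∀ v : ℝ, ∀ k : ℝ, Real.exp v ^ (k : ℝ)⁻¹ = Real.exp (v / k) := by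
    intro v k
    rw [← Real.exp_mul]; congr 1
  have hd : ∀ v : ℝ, Real.exp (v / 2) * (eP v - eT v) =
      (Chebyshev.psi (Real.exp v) - Chebyshev.theta (Real.exp v)) * Real.exp (-(v / 2)) := by
    intro v
    rw [Q239.RN.diff_eq]
    have : Real.exp (v / 2) * Real.exp (-v) = Real.exp (-(v / 2)) := by
      rw [← Real.exp_add]; congr 1; ring
    linear_combination (Chebyshev.psi (Real.exp v) - Chebyshev.theta (Real.exp v)) * this
  have hlim2 : Tendsto (fun v : ℝ => Chebyshev.psi (Real.exp (v / 2)) * Real.exp (-(v / 2))) atTop (𝓝 1) := by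
    have h1 : Tendsto (fun v : ℝ => v / 2) atTop atTop := tendsto_id.atTop_div_const (by norm_num)
    have h2 : Tendsto (fun v : ℝ => 1 + eP (v / 2)) atTop (𝓝 (1 + 0)) :=
      tendsto_const_nhds.add (eP_zero.comp h1)
    rw [add_zero] at h2
    refine h2.congr fun v => ?_
    rw [hpsi]
    have : Real.exp (v / 2) * Real.exp (-(v / 2)) = 1 := by rw [← Real.exp_add]; simp
    linear_combination (-(1 + eP (v / 2))) * this
  have hlimk : ∀ k : ℝ, 2 < k → Tendsto (fun v : ℝ => Chebyshev.psi (Real.exp (v / k)) * Real.exp (-(v / 2)))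
      atTop (𝓝 0) := by
    intro k hk
    have h1 : Tendsto (fun v : ℝ => v / k) atTop atTop := tendsto_id.atTop_div_const (by linarith)
    have h2 : Tendsto (fun v : ℝ => 1 + eP (v / k)) atTop (𝓝 (1 + 0)) :=
      tendsto_const_nhds.add (eP_zero.comp h1)
    have hk2 : 0 < 1 / 2 - 1 / k := by
      have : 1 / k < 1 / 2 := one_div_lt_one_div_of_lt (by norm_num) hk
      linarith
    have h3 : Tendsto (fun v : ℝ => Real.exp (-((1 / 2 - 1 / k) * v))) atTop (𝓝 0) :=
      Real.tendsto_exp_neg_atTop_nhds_zero.comp (tendsto_id.const_mul_atTop hk2)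
    have h4 := h2.mul h3
    rw [mul_zero] at h4
    refine h4.congr fun v => ?_
    rw [hpsi]
    have : Real.exp (v / k) * Real.exp (-(v / 2)) = Real.exp (-((1 / 2 - 1 / k) * v)) := by
      rw [← Real.exp_add]; congr 1; ring
    linear_combination (-(1 + eP (v / k))) * this
  have up : Tendsto (fun v : ℝ => Chebyshev.psi (Real.exp (v / 2)) * Real.exp (-(v / 2)) +
      Chebyshev.psi (Real.exp (v / 3)) * Real.exp (-(v / 2)) +
      Chebyshev.psi (Real.exp (v / 5)) * Real.exp (-(v / 2))) atTop (𝓝 1) := by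
    have := (hlim2.add (hlimk 3 (by norm_num))).add (hlimk 5 (by norm_num))
    simpa using this
  have lo : Tendsto (fun v : ℝ => Chebyshev.psi (Real.exp (v / 2)) * Real.exp (-(v / 2)) +
      Chebyshev.psi (Real.exp (v / 3)) * Real.exp (-(v / 2)) +
      Chebyshev.psi (Real.exp (v / 7)) * Real.exp (-(v / 2))) atTop (𝓝 1) := by
    have := (hlim2.add (hlimk 3 (by norm_num))).add (hlimk 7 (by norm_num))
    simpa using this
  refine tendsto_of_tendsto_of_tendsto_of_le_of_le lo up (fun v => ?_) (fun v => ?_)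
  · have h := Chebyshev.psi_sub_theta_ge_psi_add_psi_add_psi (Real.exp_pos v).le
    rw [hpow, hpow, hpow] at h
    show _ ≤ Real.exp (v / 2) * (eP v - eT v)
    rw [hd, ← add_mul, ← add_mul]
    exact mul_le_mul_of_nonneg_right h (Real.exp_pos _).le
  · have h := Chebyshev.psi_sub_theta_le_psi_add_psi_add_psi (Real.exp v)
    rw [hpow, hpow, hpow] at h
    show Real.exp (v / 2) * (eP v - eT v) ≤ _
    rw [hd, ← add_mul, ← add_mul]
    exact mul_le_mul_of_nonneg_right h (Real.exp_pos _).le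

/-- the difference of the two tail integrals -/
theorem kT_kP : Tendsto (fun u : ℝ => u * Real.exp (u / 2) * (kT u - kP u)) atTop (𝓝 2) := by
  obtain ⟨C, hC, hd⟩ := diff_le
  have h := avg (g := fun v => Real.exp (v / 2) * (eP v - eT v)) (B := C) (L := 1)
    ((by fun_prop : Measurable fun v : ℝ => Real.exp (v / 2)).mul (eP_meas.sub eT_meas)) (by
      intro v _
      rw [abs_of_nonneg (mul_nonneg (Real.exp_pos _).le (diff_nonneg v))]
      have h1 : Real.exp (v / 2) * Real.exp (-(v / 2)) = 1 := by rw [← Real.exp_add]; simp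
      have h2 := mul_le_mul_of_nonneg_left (hd v) (Real.exp_pos (v / 2)).le
      refine h2.trans (le_of_eq ?_)
      linear_combination C * h1) diff_lim
  rw [mul_one] at h
  refine h.congr' ?_
  filter_upwards [eventually_ge_atTop 1] with u hu
  congr 1
  unfold kT kP
  have e : ∀ v : ℝ, Real.exp (-(v / 2)) * (Real.exp (v / 2) * (eP v - eT v)) * om v = eP v * om v - eT v * om v := by
    intro v
    have h1 : Real.exp (v / 2) * Real.exp (-(v / 2)) = 1 := by rw [← Real.exp_add]; simp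
    linear_combination ((eP v - eT v) * om v) * h1
  simp only [e]
  rw [integral_sub (eP_int hu) (eT_int hu)]
  ring

/-- minus the derivative of the weight -/
noncomputable def qw (t : ℝ) : ℝ := 1 / t ^ 2 + 2 / t ^ 3

theorem qw_meas : Measurable qw := by unfold qw; fun_prop

theorem qw_pos {t : ℝ} (ht : 0 < t) : 0 < qw t := by unfold qw; positivity

theorem om_deriv2 {t : ℝ} (ht : 0 < t) : HasDerivAt (fun v : ℝ => -om v) (qw t) t := by
  have h1 : HasDerivAt (fun v : ℝ => v⁻¹) (-(t ^ 2)⁻¹) t := hasDerivAt_inv ht.ne'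
  have h2 := (h1.add (h1.mul h1)).neg
  have e : (fun v : ℝ => -om v) = fun v : ℝ => -(v⁻¹ + v⁻¹ * v⁻¹) := by
    funext v
    unfold om
    by_cases hv : v = 0
    · subst hv; simp
    · field_simp
  rw [e]
  refine h2.congr_deriv ?_
  unfold qw
  field_simp
  ring

theorem om_zero : Tendsto om atTop (𝓝 0) := by
  have i1 : Tendsto (fun u : ℝ => u⁻¹) atTop (𝓝 0) := tendsto_inv_atTop_zero
  have i2 := i1.add (i1.mul i1)
  simp only [add_zero, mul_zero] at i2
  refine i2.congr' ?_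
  filter_upwards [eventually_gt_atTop 0] with u hu
  unfold om
  field_simp

theorem qw_int {u : ℝ} (hu : 0 < u) : IntegrableOn qw (Ioi u) := by
  refine integrableOn_Ioi_deriv_of_nonneg' (g := fun v => -om v) (l := -0) ?_ ?_ ?_
  · intro x hx
    exact om_deriv2 (hu.trans_le hx)
  · intro x hx
    exact (qw_pos (hu.trans hx)).le
  · exact om_zero.neg

theorem qw_Ioo {u v : ℝ} (hu : 0 < u) (huv : u ≤ v) : ∫ t in Ioo u v, qw t = om u - om v := by
  rw [← integral_Ioc_eq_integral_Ioo, ← intervalIntegral.integral_of_le huv]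
  rw [intervalIntegral.integral_eq_sub_of_hasDerivAt (f := fun v => -om v)]
  · ring
  · intro x hx
    rw [uIcc_of_le huv] at hx
    exact om_deriv2 (hu.trans_le hx.1)
  · have := (qw_int hu).mono_set (fun x (hx : x ∈ Ioc u v) => (hx.1 : x ∈ Ioi u))
    rw [intervalIntegrable_iff_integrableOn_Ioc_of_le huv]
    exact this

theorem eP_int0 {u : ℝ} (hu : 1 ≤ u) : IntegrableOn eP (Ioi u) := by
  obtain ⟨C, hC, h⟩ := eP_pnt 2
  have h1 : IntegrableOn (fun v : ℝ => C * v ^ (-2 : ℝ)) (Set.Ioi u) :=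
    (integrableOn_Ioi_rpow_of_lt (by norm_num) (by linarith)).const_mul _
  refine Integrable.mono' h1 eP_meas.aestronglyMeasurable ?_
  refine (ae_restrict_iff' measurableSet_Ioi).2 (Eventually.of_forall fun v hv => ?_)
  have hv1 : 1 ≤ v := hu.trans (le_of_lt hv)
  have hv0 : 0 < v := by linarith
  rw [Real.norm_eq_abs, Real.rpow_neg hv0.le, Real.rpow_two]
  refine (h v hv1).trans (le_of_eq ?_)
  rw [div_eq_mul_inv]

/-- integration by parts -/
theorem parts {u : ℝ} (hu : 1 ≤ u) :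
    kP u = (∫ t in Ioi u, qw t * ∫ v in Ioi t, eP v) - om u * ∫ v in Ioi u, eP v := by
  have hu0 : 0 < u := by linarith
  set F : ℝ → ℝ → ℝ := fun v t => (Iio v).indicator (fun t => eP v * qw t) t with hF
  have hFm : Measurable (Function.uncurry F) := by
    have h1 : MeasurableSet {p : ℝ × ℝ | p.2 < p.1} := measurableSet_lt measurable_snd measurable_fst
    have h2 : Measurable fun p : ℝ × ℝ => eP p.1 * qw p.2 :=
      (eP_meas.comp measurable_fst).mul (qw_meas.comp measurable_snd)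
    have h3 : Function.uncurry F = {p : ℝ × ℝ | p.2 < p.1}.indicator fun p => eP p.1 * qw p.2 := by
      funext p
      rfl
    rw [h3]
    exact h2.indicator h1
  have hint : Integrable (Function.uncurry F) ((volume.restrict (Ioi u)).prod (volume.restrict (Ioi u))) := by
    have h1 : Integrable (fun p : ℝ × ℝ => eP p.1 * qw p.2)
        ((volume.restrict (Ioi u)).prod (volume.restrict (Ioi u))) :=
      Integrable.mul_prod (eP_int0 hu) (qw_int hu0)
    refine h1.mono hFm.aestronglyMeasurable (Eventually.of_forall fun p => ?_)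
    simp only [Function.uncurry, hF, Set.indicator, mem_Iio]
    split_ifs
    · exact le_rfl
    · rw [norm_zero]; exact norm_nonneg _
  have hswap := integral_integral_swap hint
  have e1 : ∀ v ∈ Ioi u, (∫ t in Ioi u, F v t) = eP v * om u - eP v * om v := by
    intro v hv
    have h1 : (∫ t in Ioi u, F v t) = ∫ t in Ioo u v, eP v * qw t := by
      simp only [hF]
      rw [setIntegral_indicator measurableSet_Iio, Ioi_inter_Iio]
    rw [h1, integral_const_mul, qw_Ioo hu0 (le_of_lt hv)]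
    ring
  have e2 : ∀ t ∈ Ioi u, (∫ v in Ioi u, F v t) = qw t * ∫ v in Ioi t, eP v := by
    intro t ht
    have h1 : (fun v => F v t) = (Ioi t).indicator fun v => qw t * eP v := by
      funext v
      simp only [hF, Set.indicator, mem_Iio, mem_Ioi]
      split_ifs
      · ring
      · rfl
    rw [h1, setIntegral_indicator measurableSet_Ioi, integral_const_mul]
    congr 2
    have : Ioi u ∩ Ioi t = Ioi t := inter_eq_right.2 (Ioi_subset_Ioi (le_of_lt ht))
    rw [this]
  rw [setIntegral_congr_fun measurableSet_Ioi e1, setIntegral_congr_fun measurableSet_Ioi e2,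
    integral_sub ((eP_int0 hu).mul_const _) (eP_int hu), integral_mul_const] at hswap
  unfold kP
  linarith

/-- the sum over the zeros -/
noncomputable def Sz (t : ℝ) : ℝ := ∑' ρ : Zt, (mu ρ : ℝ) * Real.cos ((ρ : ℂ).im * t) / ‖(ρ : ℂ)‖ ^ 2

theorem half_sq (ρ : Zt) (h : (ρ : ℂ).re = 1 / 2) : (ρ : ℂ) * (1 - (ρ : ℂ)) = ((‖(ρ : ℂ)‖ ^ 2 : ℝ) : ℂ) := by
  have h1 : ‖(ρ : ℂ)‖ ^ 2 = 1 / 4 + (ρ : ℂ).im ^ 2 := by
    rw [← Complex.normSq_eq_norm_sq, Complex.normSq_apply, h]; ring
  rw [h1]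
  apply Complex.ext
  · rw [Complex.ofReal_re]; simp [h]; ring
  · rw [Complex.ofReal_im]; simp [h]; ring

theorem low_norm (ρ : Zt) (h : (ρ : ℂ).re = 1 / 2) : 1 / 4 * (1 + ((ρ : ℂ).im - 0) ^ 2) ≤ ‖(ρ : ℂ)‖ ^ 2 := by
  have h1 : ‖(ρ : ℂ)‖ ^ 2 = 1 / 4 + (ρ : ℂ).im ^ 2 := by
    rw [← Complex.normSq_eq_norm_sq, Complex.normSq_apply, h]; ring
  rw [h1, sub_zero]
  nlinarith [sq_nonneg (ρ : ℂ).im]

theorem term_norm (hRH : ∀ ρ : Zt, (ρ : ℂ).re = 1 / 2) (t : ℝ) (ρ : Zt) :
    |(mu ρ : ℝ) * Real.cos ((ρ : ℂ).im * t) / ‖(ρ : ℂ)‖ ^ 2| ≤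
      4 * ((mu ρ : ℝ) * (1 / (1 + ((ρ : ℂ).im - 0) ^ 2))) := by
  have h1 := low_norm ρ (hRH ρ)
  have h2 : 0 < 1 / 4 * (1 + ((ρ : ℂ).im - 0) ^ 2) := by positivity
  rw [abs_div, abs_mul, abs_of_nonneg (Nat.cast_nonneg (α := ℝ) (mu ρ)), abs_of_pos (h2.trans_le h1)]
  calc (mu ρ : ℝ) * |Real.cos ((ρ : ℂ).im * t)| / ‖(ρ : ℂ)‖ ^ 2 ≤
      (mu ρ : ℝ) * 1 / (1 / 4 * (1 + ((ρ : ℂ).im - 0) ^ 2)) := by
        have := Real.abs_cos_le_one ((ρ : ℂ).im * t)
        gcongr
    _ = _ := by field_simp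

theorem Sz_summable (hRH : ∀ ρ : Zt, (ρ : ℂ).re = 1 / 2) (t : ℝ) :
    Summable fun ρ : Zt => (mu ρ : ℝ) * Real.cos ((ρ : ℂ).im * t) / ‖(ρ : ℂ)‖ ^ 2 := by
  refine Summable.of_norm_bounded ((Pool.Agent.Y23.zsummable 0).mul_left 4) fun ρ => ?_
  rw [Real.norm_eq_abs]
  exact term_norm hRH t ρ

theorem Sz_bdd (hRH : ∀ ρ : Zt, (ρ : ℂ).re = 1 / 2) : ∃ B : ℝ, 0 ≤ B ∧ ∀ t : ℝ, |Sz t| ≤ B := by
  refine ⟨∑' ρ : Zt, 4 * ((mu ρ : ℝ) * (1 / (1 + ((ρ : ℂ).im - 0) ^ 2))), ?_, fun t => ?_⟩
  · exact tsum_nonneg fun ρ => by positivity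
  · unfold Sz
    rw [← Real.norm_eq_abs]
    refine tsum_of_norm_bounded ((Pool.Agent.Y23.zsummable 0).mul_left 4).hasSum fun ρ => ?_
    rw [Real.norm_eq_abs]
    exact term_norm hRH t ρ

/-- the sum in the explicit formula -/
theorem sum_re (hRH : ∀ ρ : Zt, (ρ : ℂ).re = 1 / 2) (u : ℝ) :
    (∑' ρ : Zt, (mu ρ : ℂ) * Complex.exp (((ρ : ℂ) - 1) * u) / ((ρ : ℂ) * (1 - (ρ : ℂ)))).re =
      Real.exp (-(u / 2)) * Sz u := by
  have hterm : ∀ ρ : Zt, (mu ρ : ℂ) * Complex.exp (((ρ : ℂ) - 1) * u) / ((ρ : ℂ) * (1 - (ρ : ℂ))) =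
      (Real.exp (-(u / 2)) : ℂ) * ((mu ρ : ℂ) * Complex.exp (((ρ : ℂ).im * u : ℝ) * Complex.I) /
        ((‖(ρ : ℂ)‖ ^ 2 : ℝ) : ℂ)) := by
    intro ρ
    rw [half_sq ρ (hRH ρ)]
    have h1 : ((ρ : ℂ) - 1) * u = ((-(u / 2) : ℝ) : ℂ) + (((ρ : ℂ).im * u : ℝ) : ℂ) * Complex.I := by
      apply Complex.ext
      · simp [hRH ρ]; ring
      · simp [hRH ρ]
    rw [h1, Complex.exp_add, ← Complex.ofReal_exp]
    ring
  have hsum : Summable fun ρ : Zt => (mu ρ : ℂ) * Complex.exp (((ρ : ℂ) - 1) * u) / ((ρ : ℂ) * (1 - (ρ : ℂ))) := by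
    refine Summable.of_norm_bounded (((Pool.Agent.Y23.zsummable 0).mul_left 4).mul_left (Real.exp (-(u / 2)))) fun ρ => ?_
    rw [hterm ρ, norm_mul, norm_div, norm_mul, Complex.norm_exp_ofReal_mul_I, Complex.norm_natCast,
      Complex.norm_real, Complex.norm_real, Real.norm_eq_abs, Real.norm_eq_abs, abs_of_pos (Real.exp_pos _)]
    have h1 := low_norm ρ (hRH ρ)
    have h2 : 0 < 1 / 4 * (1 + ((ρ : ℂ).im - 0) ^ 2) := by positivity
    rw [abs_of_pos (h2.trans_le h1)]
    have h3 : (mu ρ : ℝ) * 1 / ‖(ρ : ℂ)‖ ^ 2 ≤ 4 * ((mu ρ : ℝ) * (1 / (1 + ((ρ : ℂ).im - 0) ^ 2))) := by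
      calc (mu ρ : ℝ) * 1 / ‖(ρ : ℂ)‖ ^ 2 ≤
          (mu ρ : ℝ) * 1 / (1 / 4 * (1 + ((ρ : ℂ).im - 0) ^ 2)) := by gcongr
        _ = _ := by field_simp
    exact mul_le_mul_of_nonneg_left h3 (Real.exp_pos _).le
  rw [Complex.re_tsum hsum]
  unfold Sz
  rw [← tsum_mul_left]
  refine tsum_congr fun ρ => ?_
  rw [hterm ρ, Complex.re_ofReal_mul]
  congr 1
  rw [Complex.div_ofReal_re]
  congr 1
  have h1 : (mu ρ : ℂ) = ((mu ρ : ℝ) : ℂ) := by simp
  rw [h1, Complex.re_ofReal_mul, Complex.exp_ofReal_mul_I_re]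

theorem asym (h : Q204.NA.SExpl) : Q204.NA.SAsym := by
  intro hR
  have hRH : ∀ ρ : Zt, (ρ : ℂ).re = 1 / 2 := Pool.Agent.Q260.LF.line_of hR
  obtain ⟨C0, hC0⟩ := h
  obtain ⟨B, hB0, hB⟩ := Sz_bdd hRH
  set C : ℝ := |C0| with hCd
  have hC : 0 ≤ C := abs_nonneg _
  have hK : ∀ u : ℝ, 1 ≤ u → |(∫ v in Ioi u, eP v) + Real.exp (-(u / 2)) * Sz u| ≤ C * Real.exp (-(3 / 4 * u)) := by
    intro u hu
    have h1 := hC0 u hu
    have h2 := (Complex.abs_re_le_norm _).trans h1
    rw [Complex.add_re, Complex.ofReal_re, sum_re hRH] at h2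
    exact h2.trans (mul_le_mul_of_nonneg_right (le_abs_self _) (Real.exp_pos _).le)
  have hKb : ∀ u : ℝ, 1 ≤ u → |∫ v in Ioi u, eP v| ≤ (C + B) * Real.exp (-(u / 2)) := by
    intro u hu
    have h1 := hK u hu
    have h2 : |Real.exp (-(u / 2)) * Sz u| ≤ B * Real.exp (-(u / 2)) := by
      rw [abs_mul, abs_of_pos (Real.exp_pos _), mul_comm]
      exact mul_le_mul_of_nonneg_right (hB u) (Real.exp_pos _).le
    have h3 : Real.exp (-(3 / 4 * u)) ≤ Real.exp (-(u / 2)) := Real.exp_le_exp.2 (by linarith)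
    have h4 : C * Real.exp (-(3 / 4 * u)) ≤ C * Real.exp (-(u / 2)) := mul_le_mul_of_nonneg_left h3 hC
    rw [abs_le] at h1 h2 ⊢
    constructor <;> nlinarith [h1.1, h1.2, h2.1, h2.2]
  -- the main term
  have t0 : Tendsto (fun u : ℝ => u * Real.exp (u / 2) * kP u - Sz u) atTop (𝓝 0) := by
    have hinv : Tendsto (fun u : ℝ => u⁻¹) atTop (𝓝 0) := tendsto_inv_atTop_zero
    have hex : Tendsto (fun u : ℝ => Real.exp (-(u / 4))) atTop (𝓝 0) :=
      Real.tendsto_exp_neg_atTop_nhds_zero.comp (tendsto_id.atTop_div_const (by norm_num))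
    have hlim : Tendsto (fun u : ℝ => (B + 6 * (C + B)) * u⁻¹ + 2 * C * Real.exp (-(u / 4))) atTop (𝓝 0) := by
      have := (hinv.const_mul (B + 6 * (C + B))).add (hex.const_mul (2 * C))
      simpa using this
    refine squeeze_zero_norm' ?_ hlim
    filter_upwards [eventually_ge_atTop 1] with u hu
    have hu0 : 0 < u := by linarith
    rw [parts hu]
    set K := ∫ v in Ioi u, eP v with hKd
    set J := ∫ t in Ioi u, qw t * ∫ v in Ioi t, eP v with hJd
    have hJ : |J| ≤ (C + B) * qw u * (2 * Real.exp (-(u / 2))) := by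
      have hexp : IntegrableOn (fun s : ℝ => Real.exp (-(s / 2))) (Ioi u) := by
        have := integrableOn_exp_mul_Ioi (a := -(1 / 2 : ℝ)) (by norm_num) u
        refine this.congr_fun (fun s _ => ?_) measurableSet_Ioi
        show Real.exp (-(1 / 2) * s) = _
        congr 1; ring
      have hval : ∫ s in Ioi u, Real.exp (-(s / 2)) = 2 * Real.exp (-(u / 2)) := by
        have := integral_exp_mul_Ioi (a := -(1 / 2 : ℝ)) (by norm_num) u
        have e : (fun s : ℝ => Real.exp (-(s / 2))) = fun s => Real.exp (-(1 / 2 : ℝ) * s) := by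
          funext s; congr 1; ring
        rw [e, this]
        have e2 : -(1 / 2 : ℝ) * u = -(u / 2) := by ring
        rw [e2]
        ring
      rw [← hval, ← integral_const_mul, ← Real.norm_eq_abs]
      refine norm_integral_le_of_norm_le (hexp.const_mul _) ?_
      refine (ae_restrict_iff' measurableSet_Ioi).2 (Eventually.of_forall fun t ht => ?_)
      have ht0 : u < t := ht
      have ht1 : 0 < t := by linarith
      rw [Real.norm_eq_abs, abs_mul, abs_of_pos (qw_pos ht1)]
      have h1 := hKb t (by linarith)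
      have h2 : qw t ≤ qw u := by
        unfold qw
        gcongr
      calc qw t * |∫ v in Ioi t, eP v| ≤ qw u * ((C + B) * Real.exp (-(t / 2))) := by
            have := (qw_pos ht1).le
            have := (qw_pos hu0).le
            gcongr
        _ = _ := by ring
    have hq : u * qw u ≤ 3 * u⁻¹ := by
      unfold qw
      have h1 : u⁻¹ ≤ 1 := inv_le_one_of_one_le₀ hu
      have h2 : 0 < u⁻¹ := by positivity
      have e : u * (1 / u ^ 2 + 2 / u ^ 3) = u⁻¹ + 2 * u⁻¹ * u⁻¹ := by field_simp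
      rw [e]; nlinarith
    have hee : Real.exp (u / 2) * Real.exp (-(u / 2)) = 1 := by rw [← Real.exp_add]; simp
    have hJ2 : |u * Real.exp (u / 2) * J| ≤ 6 * (C + B) * u⁻¹ := by
      rw [abs_mul, abs_of_pos (by positivity : 0 < u * Real.exp (u / 2))]
      calc u * Real.exp (u / 2) * |J| ≤ u * Real.exp (u / 2) * ((C + B) * qw u * (2 * Real.exp (-(u / 2)))) := by gcongr
        _ = 2 * (C + B) * (u * qw u) * (Real.exp (u / 2) * Real.exp (-(u / 2))) := by ring
        _ ≤ 2 * (C + B) * (3 * u⁻¹) * 1 := by rw [hee]; gcongr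
        _ = _ := by ring
    have hom : u * om u = 1 + u⁻¹ := by unfold om; field_simp
    have hKu := hK u hu
    have hee2 : Real.exp (u / 2) * Real.exp (-(3 / 4 * u)) = Real.exp (-(u / 4)) := by
      rw [← Real.exp_add]; congr 1; ring
    have hM : |u * Real.exp (u / 2) * (om u * K) + (1 + u⁻¹) * Sz u| ≤ 2 * C * Real.exp (-(u / 4)) := by
      have e : u * Real.exp (u / 2) * (om u * K) + (1 + u⁻¹) * Sz u =
          (1 + u⁻¹) * (Real.exp (u / 2) * (K + Real.exp (-(u / 2)) * Sz u)) := by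
        linear_combination (Real.exp (u / 2) * K) * hom - ((1 + u⁻¹) * Sz u) * hee
      rw [e, abs_mul, abs_mul, abs_of_pos (Real.exp_pos _), abs_of_pos (by positivity : 0 < 1 + u⁻¹)]
      have h1 : u⁻¹ ≤ 1 := inv_le_one_of_one_le₀ hu
      calc (1 + u⁻¹) * (Real.exp (u / 2) * |K + Real.exp (-(u / 2)) * Sz u|) ≤
          2 * (Real.exp (u / 2) * (C * Real.exp (-(3 / 4 * u)))) := by
            gcongr
            linarith
        _ = 2 * C * (Real.exp (u / 2) * Real.exp (-(3 / 4 * u))) := by ring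
        _ = _ := by rw [hee2]
    have hS : |u⁻¹ * Sz u| ≤ B * u⁻¹ := by
      rw [abs_mul, abs_of_pos (by positivity : 0 < u⁻¹), mul_comm]
      exact mul_le_mul_of_nonneg_right (hB u) (by positivity)
    have e : u * Real.exp (u / 2) * (J - om u * K) - Sz u =
        u * Real.exp (u / 2) * J - (u * Real.exp (u / 2) * (om u * K) + (1 + u⁻¹) * Sz u) + u⁻¹ * Sz u := by ring
    rw [Real.norm_eq_abs, e]
    rw [abs_le] at hJ2 hM hS ⊢
    constructor <;> linarith [hJ2.1, hJ2.2, hM.1, hM.2, hS.1, hS.2]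
  have t1 := t0.add (kT_kP.sub_const 2)
  have e0 : (0 : ℝ) + (2 - 2) = 0 := by norm_num
  rw [e0] at t1
  refine t1.congr fun u => ?_
  unfold Q204.NA.cz Sz
  ring

end Pool.Agent.Q210.NA
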